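import Pool.Agent.H7.HD.Targets7
import Pool.Agent.H65.HD.CB

/-!
# Modules CP and OL: closure of almost all sets `f '' γ` (MP_e37c09_lc)
-/

open Ordinal Cardinal Order Set
open scoped ZFSet

universe u

namespace Pool.Agent.H84.HD.CP

open _root_.HD

/-- a choice of indices -/
theorem exists_index {K : Cardinal.{u}} {lam : Ordinal.{u}} {f : Ordinal.{u} → Ordinal.{u}}
    (hf : Sj K lam f) : ∃ i : Ordinal.{u} → Ordinal.{u}, ∀ z < lam, i z < K.ord ∧ f (i z) = z := by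
  have h : ∀ z, ∃ x, z < lam → x < K.ord ∧ f x = z := by
    intro z
    by_cases hz : z < lam
    · obtain ⟨x, h1, h2⟩ := hf.onto z hz
      exact ⟨x, fun _ => ⟨h1, h2⟩⟩
    · exact ⟨0, fun h => absurd h hz⟩
  choose i hi using h
  exact ⟨i, hi⟩

theorem cp : T_CP.{u} := by
  intro K lam f hK hK0 hf H hH
  obtain ⟨i, hi⟩ := exists_index hf
  refine ⟨_, Pool.Agent.H65.HD.CB.cb K hK hK0 (fun x y => i (H (f x) (f y)))
    (fun x hx y hy => (hi _ (hH _ (hf.lt x hx) _ (hf.lt y hy))).1), ?_⟩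
  rintro γ ⟨-, hγ⟩ hγK _ ⟨x, hx, rfl⟩ _ ⟨y, hy, rfl⟩
  exact ⟨i (H (f x) (f y)), hγ x hx y hy,
    (hi _ (hH _ (hf.lt x (lt_trans hx hγK)) _ (hf.lt y (lt_trans hy hγK)))).2⟩

end Pool.Agent.H84.HD.CP
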