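import Pool.Agent.H84.HD.CP
import Pool.Agent.H2.HD.UV

/-!
# Module OL: closure under limits of small cofinality (MP_e37c09_lc)
-/

open Ordinal Cardinal Order Set
open scoped ZFSet

universe u

namespace Pool.Agent.H84.HD.OL

open _root_.HD

theorem ol : T_OL.{u} := by
  classical
  intro K lam f hK hK0 hf
  obtain ⟨i, hi⟩ := Pool.Agent.H84.HD.CP.exists_index hf
  have hK1 : 0 < K.ord := by
    have : (0 : Ordinal.{u}) < ω := omega0_pos
    exact this.trans_le (by rw [← Cardinal.ord_aleph0]; exact Cardinal.ord_le_ord.2 hK0.le)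
  set G : Ordinal.{u} → Ordinal.{u} → Ordinal.{u} := fun x y =>
    if sSup {z | z ∈ f '' Iio x ∧ z < f y} < lam then i (sSup {z | z ∈ f '' Iio x ∧ z < f y}) else 0
    with hG
  refine ⟨_, Pool.Agent.H65.HD.CB.cb K hK hK0 G (fun x _ y _ => ?_), ?_⟩
  · simp only [hG]
    split_ifs with h
    · exact (hi _ h).1
    · exact hK1
  rintro γ ⟨-, hγ⟩ hγK x hx0 hxγ hxl ⟨z0, hz0, hxz0⟩
  -- the least element above `x`
  set S : Set Ordinal.{u} := {z | z ∈ f '' Iio γ ∧ x ≤ z} with hS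
  have hSne : S.Nonempty := ⟨z0, hz0, hxz0⟩
  have haS : sInf S ∈ S := csInf_mem hSne
  obtain ⟨⟨y0, hy0, hy0a⟩, hxa⟩ := haS
  have hmin : ∀ z ∈ f '' Iio γ, z < sInf S → z < x := by
    intro z hz hza
    by_contra h
    exact absurd (csInf_le' (show z ∈ S from ⟨hz, not_lt.1 h⟩)) (not_le.2 hza)
  rw [← hy0a] at hmin hxa
  have hxlim : IsSuccLimit x := (Ordinal.one_lt_cof_iff).1 (Cardinal.one_lt_aleph0.trans_le hx0)
  have hγlim : IsSuccLimit γ := (Ordinal.one_lt_cof_iff).1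
    (Cardinal.one_lt_aleph0.trans_le (hx0.trans hxγ.le))
  obtain ⟨g, hg1, -, hg3⟩ := Pool.Agent.H2.HD.UV.exists_seq hxlim
  have hch : ∀ j, ∃ ξ, j < x.cof.ord → ξ < γ ∧ g j < f ξ ∧ f ξ < x := by
    intro j
    by_cases hj : j < x.cof.ord
    · obtain ⟨z, ⟨ξ, hξ, rfl⟩, h1, h2⟩ := hxl (g j) (hg1 j hj)
      exact ⟨ξ, fun _ => ⟨hξ, h1, h2⟩⟩
    · exact ⟨0, fun h => absurd h hj⟩
  choose ξ hξ using hch
  obtain ⟨ε0, hε0, hε⟩ := Pool.Agent.H3.HD.exists_bound (ρ := γ) (τ := x.cof.ord)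
    (by rw [Cardinal.card_ord]; exact hxγ) ξ (fun j hj => (hξ j hj).1)
  have hε1 : ε0 + 1 < γ := hγlim.add_one_lt hε0
  have hsup : sSup {z | z ∈ f '' Iio (ε0 + 1) ∧ z < f y0} = x := by
    have hbd : ∀ z ∈ {z | z ∈ f '' Iio (ε0 + 1) ∧ z < f y0}, z < x := by
      rintro z ⟨⟨w, hw, rfl⟩, hz2⟩
      exact hmin _ ⟨w, lt_trans hw hε1, rfl⟩ hz2
    have hmemA : ∀ j < x.cof.ord, f (ξ j) ∈ {z | z ∈ f '' Iio (ε0 + 1) ∧ z < f y0} := by
      intro j hj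
      exact ⟨⟨ξ j, lt_of_le_of_lt (hε j hj) (_root_.lt_add_one ε0), rfl⟩,
        (hξ j hj).2.2.trans_le hxa⟩
    apply le_antisymm
    · obtain ⟨j, hj, -⟩ := hg3 0 (hxlim.bot_lt)
      exact csSup_le ⟨_, hmemA j hj⟩ fun z hz => (hbd z hz).le
    · refine le_of_forall_lt fun y hy => ?_
      obtain ⟨j, hj, hyj⟩ := hg3 y hy
      exact (hyj.trans (hξ j hj).2.1).trans_le
        (le_csSup ⟨x, fun z hz => (hbd z hz).le⟩ (hmemA j hj))
  have hxlam : x < lam := hxa.trans_lt (hf.lt y0 (lt_trans hy0 hγK))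
  refine ⟨G (ε0 + 1) y0, hγ _ hε1 _ hy0, ?_⟩
  simp only [hG]
  rw [hsup, if_pos hxlam]
  exact (hi x hxlam).2

end Pool.Agent.H84.HD.OL
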